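import Mathlib

set_option autoImplicit false

open MeasureTheory Filter Topology

namespace Pool.Agent.Results.MP_6603ca_an.NoFullSupport

/-! ### Definitions: entropy of a cover, uniform positive entropy -/

/-- The join `𝒰 ∨ T⁻¹𝒰 ∨ ⋯ ∨ T^{-(n-1)}𝒰`. -/
def coverJoin {X : Type*} (T : X → X) (𝒰 : Set (Set X)) (n : ℕ) : Set (Set X) :=
  {W | ∃ c : ℕ → Set X, (∀ i, c i ∈ 𝒰) ∧ W = ⋂ i ∈ Finset.range n, T^[i] ⁻¹' c i}

/-- The minimal cardinality of a (finite) subcover of `𝒱`. -/
noncomputable def minCard {X : Type*} (𝒱 : Set (Set X)) : ℕ :=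
  sInf {k | ∃ 𝒮 : Finset (Set X), (𝒮 : Set (Set X)) ⊆ 𝒱 ∧
    ⋃₀ (𝒮 : Set (Set X)) = Set.univ ∧ 𝒮.card = k}

/-- The topological entropy of a finite cover. The limit of `(1/n) log N(𝒰 ∨ ⋯ ∨ T^{-(n-1)}𝒰)`
exists by subadditivity; we write it as a lower limit. -/
noncomputable def coverEntropy {X : Type*} (T : X → X) (𝒰 : Set (Set X)) : EReal :=
  liminf (fun n : ℕ => ((Real.log (minCard (coverJoin T 𝒰 n)) / n : ℝ) : EReal)) atTop

/-- Uniform positive entropy: every cover by two non-dense open sets has positive entropy. -/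
def IsUPE {X : Type*} [TopologicalSpace X] (T : X → X) : Prop :=
  ∀ U V : Set X, IsOpen U → IsOpen V → U ∪ V = Set.univ → ¬ Dense U → ¬ Dense V →
    0 < coverEntropy T {U, V}

/-! ### The system -/

/-- Sequences `z ∈ [-1,1]^ℤ` such that a negative value `z i` forces the forward averages of the
positive part of `z`, started at `i`, to be at most `1 - |z i|`. -/
def K : Set (ℤ → ℝ) :=
  {z | (∀ i, |z i| ≤ 1) ∧ ∀ (i : ℤ) (n : ℕ),
    ∑ j ∈ Finset.range (n + 1), max (z (i + j)) 0 ≤ (1 + min (z i) 0) * ((n : ℝ) + 1)}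

/-- The shift homeomorphism of `ℤ → ℝ`. -/
def sh : (ℤ → ℝ) ≃ₜ (ℤ → ℝ) where
  toFun z := fun i => z (i + 1)
  invFun z := fun i => z (i - 1)
  left_inv z := by funext i; simp
  right_inv z := by funext i; simp
  continuous_toFun := continuous_pi fun i => continuous_apply _
  continuous_invFun := continuous_pi fun i => continuous_apply _

lemma sh_mem (z : ℤ → ℝ) : z ∈ K ↔ sh z ∈ K := by
  have key : ∀ i : ℤ, sh z i = z (i + 1) := fun i => rfl
  constructor
  · rintro ⟨h1, h2⟩
    refine ⟨fun i => h1 _, fun i n => ?_⟩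
    have := h2 (i + 1) n
    simp only [key]
    have e : ∀ j : ℕ, i + (j : ℤ) + 1 = i + 1 + j := fun j => by ring
    simpa only [e] using this
  · rintro ⟨h1, h2⟩
    refine ⟨fun i => ?_, fun i n => ?_⟩
    · have := h1 (i - 1)
      rwa [key, sub_add_cancel] at this
    · have := h2 (i - 1) n
      have e : ∀ j : ℕ, i - 1 + (j : ℤ) + 1 = i + j := fun j => by ring
      simpa only [key, e, sub_add_cancel] using this

/-- The shift on `K`. -/
def T : K ≃ₜ K := sh.subtype sh_mem

lemma T_iterate (k : ℕ) (z : K) (i : ℤ) : ((T^[k] z : K) : ℤ → ℝ) i = (z : ℤ → ℝ) (i + k) := by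
  induction k generalizing z with
  | zero => simp
  | succ k ih =>
    rw [Function.iterate_succ, Function.comp_apply, ih]
    have h : i + ((k + 1 : ℕ) : ℤ) = i + k + 1 := by push_cast; ring
    rw [h]
    rfl

lemma isClosed_K : IsClosed K := by
  have h1 : IsClosed {z : ℤ → ℝ | ∀ i, |z i| ≤ 1} := by
    simp only [Set.ofPred_forall]
    exact isClosed_iInter fun i => isClosed_le ((continuous_apply i).abs) continuous_const
  have h2 : IsClosed {z : ℤ → ℝ | ∀ (i : ℤ) (n : ℕ),
      ∑ j ∈ Finset.range (n + 1), max (z (i + j)) 0 ≤ (1 + min (z i) 0) * ((n : ℝ) + 1)} := by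
    simp only [Set.ofPred_forall]
    refine isClosed_iInter fun i => isClosed_iInter fun n => isClosed_le ?_ ?_
    · exact continuous_finsetSum _ fun j _ => (continuous_apply _).max continuous_const
    · exact (continuous_const.add ((continuous_apply _).min continuous_const)).mul
        continuous_const
  exact h1.inter h2

lemma isCompact_K : IsCompact K := by
  have h : IsCompact (Set.pi Set.univ fun _ : ℤ => Set.Icc (-1 : ℝ) 1) :=
    isCompact_univ_pi fun _ => isCompact_Icc
  refine h.of_isClosed_subset isClosed_K fun z hz i _ => ?_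
  exact abs_le.1 (hz.1 i)

instance : CompactSpace K := isCompact_iff_compactSpace.1 isCompact_K

/-! ### Gluing -/

lemma count_bound (R g ρ n : ℕ) (hg : 0 < g) :
    ((Finset.range (n + 1)).filter fun j => g ≤ ρ + j ∧ (ρ + j) % g < R).card
      ≤ ((ρ + n) / g) * R := by
  have : ((Finset.range (n + 1)).filter fun j => g ≤ ρ + j ∧ (ρ + j) % g < R).card
      ≤ (Finset.range ((ρ + n) / g) ×ˢ Finset.range R).card := by
    refine Finset.card_le_card_of_injOn (fun j => ((ρ + j) / g - 1, (ρ + j) % g)) ?_ ?_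
    · intro j hj
      simp only [Finset.coe_filter, Finset.mem_range, Set.mem_ofPred_eq] at hj
      simp only [Finset.coe_product, Finset.coe_range, Set.mem_prod, Set.mem_Iio]
      refine ⟨?_, hj.2.2⟩
      have h1 : 1 ≤ (ρ + j) / g := (Nat.one_le_div_iff hg).2 hj.2.1
      have h2 : (ρ + j) / g ≤ (ρ + n) / g := Nat.div_le_div_right (by omega)
      omega
    · intro j hj j' hj' heq
      simp only [Finset.coe_filter, Finset.mem_range, Set.mem_ofPred_eq] at hj hj'
      simp only [Prod.mk.injEq] at heq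
      have h1 : 1 ≤ (ρ + j) / g := (Nat.one_le_div_iff hg).2 hj.2.1
      have h1' : 1 ≤ (ρ + j') / g := (Nat.one_le_div_iff hg).2 hj'.2.1
      have h2 : (ρ + j) / g = (ρ + j') / g := by omega
      have h3 := Nat.div_add_mod (ρ + j) g
      have h4 := Nat.div_add_mod (ρ + j') g
      rw [h2, heq.2] at h3
      omega
  simpa using this

lemma count_bound_real {R g ρ n : ℕ} {ε : ℝ} (hR : 0 < R) (hρ : ρ < R) (hg : 2 * R ≤ g)
    (hgε : 2 * (R : ℝ) ≤ ε * g) :
    (((Finset.range (n + 1)).filter fun j => g ≤ ρ + j ∧ (ρ + j) % g < R).card : ℝ)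
      ≤ ε * ((n : ℝ) + 1) := by
  have hg0 : 0 < g := by omega
  have hε : 0 ≤ ε := by
    by_contra h
    push Not at h
    have : ε * g < 0 := mul_neg_of_neg_of_pos h (by exact_mod_cast hg0)
    have : (0 : ℝ) ≤ 2 * (R : ℝ) := by positivity
    linarith
  have h1 := count_bound R g ρ n hg0
  have h2 : (((ρ + n) / g * R : ℕ) : ℝ) ≤ ε * ((n : ℝ) + 1) := by
    by_cases hlt : ρ + n < g
    · rw [Nat.div_eq_of_lt hlt]
      simp only [zero_mul, Nat.cast_zero]
      positivity
    · push Not at hlt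
      have h3 : ((ρ + n) / g * g : ℕ) ≤ ρ + n := Nat.div_mul_le_self _ _
      have h4 : ρ + n ≤ 2 * (n + 1) := by omega
      have h5 : (((ρ + n) / g : ℕ) : ℝ) * g ≤ 2 * ((n : ℝ) + 1) := by
        have := h3.trans h4
        exact_mod_cast this
      have hgr : (0 : ℝ) < g := by exact_mod_cast hg0
      push_cast
      have h6 : (((ρ + n) / g : ℕ) : ℝ) * R * g ≤ ε * ((n : ℝ) + 1) * g := by
        calc (((ρ + n) / g : ℕ) : ℝ) * R * g = ((((ρ + n) / g : ℕ) : ℝ) * g) * R := by ring
          _ ≤ (2 * ((n : ℝ) + 1)) * R := by gcongr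
          _ = (2 * (R : ℝ)) * ((n : ℝ) + 1) := by ring
          _ ≤ (ε * g) * ((n : ℝ) + 1) := by gcongr
          _ = ε * ((n : ℝ) + 1) * g := by ring
      exact le_of_mul_le_mul_right h6 hgr
  exact (by exact_mod_cast h1 : (_ : ℝ) ≤ (((ρ + n) / g * R : ℕ) : ℝ)).trans h2

/-- The modified value: negative values are raised by `ε` (at most up to `0`). -/
noncomputable def lift (ε y : ℝ) : ℝ := y + min ε (max (-y) 0)

lemma lift_of_nonneg {ε y : ℝ} (hε : 0 ≤ ε) (hy : 0 ≤ y) : lift ε y = y := by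
  unfold lift
  rw [max_eq_right (by linarith), min_eq_right hε, add_zero]

lemma lift_of_lt {ε y : ℝ} (hy : y < 0) : lift ε y = min (y + ε) 0 := by
  unfold lift
  rw [max_eq_left (by linarith), ← min_add_add_left]
  simp

lemma abs_lift_sub {ε y : ℝ} (hε : 0 ≤ ε) : |lift ε y - y| ≤ ε := by
  unfold lift
  rw [add_sub_cancel_left, abs_of_nonneg (le_min hε (le_max_right _ _))]
  exact min_le_left _ _

lemma abs_lift_le {ε y : ℝ} (hε : 0 ≤ ε) (hy : |y| ≤ 1) : |lift ε y| ≤ 1 := by
  have hy' := abs_le.1 hy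
  rcases lt_or_ge y 0 with h | h
  · rw [lift_of_lt h, abs_le]
    constructor
    · exact le_min (by linarith) (by norm_num)
    · exact (min_le_right _ _).trans (by norm_num)
  · rw [lift_of_nonneg hε h]; exact hy

lemma max_lift_le {ε y : ℝ} (hε : 0 ≤ ε) : max (lift ε y) 0 ≤ max y 0 := by
  rcases lt_or_ge y 0 with h | h
  · rw [lift_of_lt h, max_eq_right (min_le_right _ _)]
    exact le_max_right _ _
  · rw [lift_of_nonneg hε h]

/-- Gluing: windows of two points of `K`, slightly modified, can be placed freely along a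
progression of positions `g ℤ`. -/
lemma glue {a b : ℤ → ℝ} (ha : a ∈ K) (hb : b ∈ K) (N₀ : ℕ) {ε : ℝ} (hε : 0 < ε) :
    ∃ g : ℕ, 0 < g ∧ ∀ s : ℤ → Bool, ∃ x ∈ K, ∀ (q r : ℤ), |r| ≤ N₀ →
      |x (g * q + r) - (if s q then a r else b r)| ≤ ε := by
  set R : ℕ := 2 * N₀ + 1 with hRdef
  obtain ⟨m, hm⟩ := exists_nat_ge (2 * (R : ℝ) / ε)
  set g : ℕ := max (2 * R) m with hgdef
  have hg2R : 2 * R ≤ g := le_max_left _ _
  have hg0 : 0 < g := by omega
  have hgε : 2 * (R : ℝ) ≤ ε * g := by
    have h1 : 2 * (R : ℝ) / ε ≤ g := hm.trans (by exact_mod_cast le_max_right (2 * R) m)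
    rw [div_le_iff₀ hε] at h1
    linarith
  have hgZ : (0 : ℤ) < g := by exact_mod_cast hg0
  refine ⟨g, hg0, fun s => ?_⟩
  -- the glued sequence
  let y : ℤ → ℤ → ℝ := fun q r => if s q then a r else b r
  have hyK : ∀ q, y q ∈ K := by
    intro q
    by_cases hs : s q
    · have : y q = a := by funext r; simp [y, hs]
      rw [this]; exact ha
    · have : y q = b := by funext r; simp [y, hs]
      rw [this]; exact hb
  let x : ℤ → ℝ := fun i =>
    if (i + N₀) % g < R then lift ε (y ((i + N₀) / g) ((i + N₀) % g - N₀)) else 0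
  have hx1 : ∀ i, |x i| ≤ 1 := by
    intro i
    simp only [x]
    split_ifs
    · exact abs_lift_le hε.le ((hyK _).1 _)
    · simp
  refine ⟨x, ⟨hx1, ?_⟩, ?_⟩
  · intro i n
    rcases le_or_gt 0 (x i) with hxi | hxi
    · rw [min_eq_right hxi, add_zero, one_mul]
      calc ∑ j ∈ Finset.range (n + 1), max (x (i + j)) 0
          ≤ ∑ j ∈ Finset.range (n + 1), (1 : ℝ) :=
            Finset.sum_le_sum fun j _ => max_le (abs_le.1 (hx1 _)).2 (by norm_num)
        _ = (n : ℝ) + 1 := by simp
    · -- `i` lies in a window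
      have hwin : (i + N₀) % g < R := by
        by_contra h
        simp only [x, if_neg h] at hxi
        exact lt_irrefl _ hxi
      set q : ℤ := (i + N₀) / g with hq
      have hρ0 : 0 ≤ (i + N₀) % g := Int.emod_nonneg _ hgZ.ne'
      obtain ⟨ρ, hρ⟩ := Int.eq_ofNat_of_zero_le hρ0
      have hρR : ρ < R := by
        have := hwin
        rw [hρ] at this
        exact_mod_cast this
      have hdecomp : i + N₀ = g * q + ρ := by
        rw [hq, ← hρ]
        exact (Int.mul_ediv_add_emod _ _).symm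
      have hxi' : x i = lift ε (y q (ρ - N₀)) := by
        simp only [x, if_pos hwin]
        rw [hρ]
      have hyneg : y q (ρ - N₀) < 0 := by
        by_contra h
        push Not at h
        rw [hxi', lift_of_nonneg hε.le h] at hxi
        linarith
      have hxi2 : x i = y q (ρ - N₀) + ε := by
        rw [hxi', lift_of_lt hyneg]
        rw [hxi', lift_of_lt hyneg] at hxi
        refine min_eq_left ?_
        by_contra h
        push Not at h
        rw [min_eq_right h.le] at hxi
        exact lt_irrefl _ hxi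
      rw [min_eq_left hxi.le]
      -- termwise bound
      have hterm : ∀ j ∈ Finset.range (n + 1), max (x (i + j)) 0
          ≤ max (y q ((ρ - N₀ : ℤ) + j)) 0
            + (if g ≤ ρ + j ∧ (ρ + j) % g < R then (1 : ℝ) else 0) := by
        intro j _
        have hk : i + j + N₀ = g * q + ((ρ + j : ℕ) : ℤ) := by
          push_cast
          linarith
        by_cases hlt : ρ + j < g
        · have hdiv : (i + j + N₀) / g = q := by
            rw [hk, Int.add_comm, Int.add_mul_ediv_left _ _ hgZ.ne',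
              Int.ediv_eq_zero_of_lt (by positivity) (by exact_mod_cast hlt), zero_add]
          have hmod : (i + j + N₀) % g = ((ρ + j : ℕ) : ℤ) := by
            rw [hk, Int.add_comm, Int.add_mul_emod_self_left,
              Int.emod_eq_of_lt (by positivity) (by exact_mod_cast hlt)]
          have hx : max (x (i + j)) 0 ≤ max (y q ((ρ - N₀ : ℤ) + j)) 0 := by
            simp only [x]
            rw [hdiv, hmod]
            split_ifs with hw
            · have e : (((ρ + j : ℕ) : ℤ) - N₀) = (ρ - N₀ : ℤ) + j := by push_cast; ring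
              rw [e]
              exact max_lift_le hε.le
            · simp
          have : ¬ (g ≤ ρ + j ∧ (ρ + j) % g < R) := fun h => by omega
          rw [if_neg this, add_zero]
          exact hx
        · push Not at hlt
          by_cases hw : (ρ + j) % g < R
          · rw [if_pos ⟨hlt, hw⟩]
            have h1 : max (x (i + j)) 0 ≤ 1 := max_le (abs_le.1 (hx1 _)).2 (by norm_num)
            have h2 : (0 : ℝ) ≤ max (y q ((ρ - N₀ : ℤ) + j)) 0 := le_max_right _ _
            linarith
          · have hmod : (i + j + N₀) % g = (((ρ + j) % g : ℕ) : ℤ) := by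
              rw [hk, Int.add_comm, Int.add_mul_emod_self_left]
              push_cast
              rfl
            have hx0 : x (i + j) = 0 := by
              simp only [x]
              rw [if_neg]
              rw [hmod]
              intro h
              exact hw (by exact_mod_cast h)
            rw [hx0, max_self]
            positivity
      calc ∑ j ∈ Finset.range (n + 1), max (x (i + j)) 0
          ≤ ∑ j ∈ Finset.range (n + 1), (max (y q ((ρ - N₀ : ℤ) + j)) 0
              + (if g ≤ ρ + j ∧ (ρ + j) % g < R then (1 : ℝ) else 0)) :=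
            Finset.sum_le_sum hterm
        _ = ∑ j ∈ Finset.range (n + 1), max (y q ((ρ - N₀ : ℤ) + j)) 0
            + (((Finset.range (n + 1)).filter fun j => g ≤ ρ + j ∧ (ρ + j) % g < R).card : ℝ) := by
            rw [Finset.sum_add_distrib, Finset.sum_boole]
        _ ≤ (1 + min (y q (ρ - N₀)) 0) * ((n : ℝ) + 1) + ε * ((n : ℝ) + 1) :=
            add_le_add ((hyK q).2 _ n) (count_bound_real (by omega) hρR hg2R hgε)
        _ = (1 + x i) * ((n : ℝ) + 1) := by
            rw [min_eq_left hyneg.le, hxi2]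
            ring
  · intro q r hr
    have hr' := abs_le.1 hr
    have e1 : g * q + r + N₀ = (r + N₀) + g * q := by ring
    have hlt : r + N₀ < g := by
      have : ((2 * R : ℕ) : ℤ) ≤ g := by exact_mod_cast hg2R
      push_cast at this
      have hR2 : (R : ℤ) = 2 * N₀ + 1 := by rw [hRdef]; push_cast; ring
      linarith [hr'.2]
    have hdiv : (g * q + r + N₀) / g = q := by
      rw [e1, Int.add_mul_ediv_left _ _ hgZ.ne', Int.ediv_eq_zero_of_lt (by linarith) hlt, zero_add]
    have hmod : (g * q + r + N₀) % g = r + N₀ := by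
      rw [e1, Int.add_mul_emod_self_left, Int.emod_eq_of_lt (by linarith) hlt]
    have hwin : r + N₀ < R := by
      have hR2 : (R : ℤ) = 2 * N₀ + 1 := by rw [hRdef]; push_cast; ring
      rw [hR2]
      linarith
    have : x (g * q + r) = lift ε (y q r) := by
      simp only [x]
      rw [hmod, hdiv, if_pos hwin, add_sub_cancel_right]
    rw [this]
    exact abs_lift_sub hε.le

/-! ### Uniform positive entropy -/

lemma exists_window {A : Set K} (hA : IsOpen A) {a : K} (ha : a ∈ A) :
    ∃ (N₀ : ℕ) (ε : ℝ), 0 < ε ∧ ∀ z : K, (∀ r : ℤ, |r| ≤ N₀ → |(z : ℤ → ℝ) r - (a : ℤ → ℝ) r| ≤ ε)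
      → z ∈ A := by
  obtain ⟨A', hA', rfl⟩ := isOpen_induced_iff.1 hA
  obtain ⟨I, u, hu, hsub⟩ := isOpen_pi_iff.1 hA' (a : ℤ → ℝ) ha
  have hε : ∀ i ∈ I, ∃ ε > 0, Metric.closedBall ((a : ℤ → ℝ) i) ε ⊆ u i := fun i hi =>
    Metric.nhds_basis_closedBall.mem_iff.1 ((hu i hi).1.mem_nhds (hu i hi).2)
  choose! e he0 he using hε
  obtain ⟨N₀, hN₀⟩ : ∃ N₀ : ℕ, ∀ i ∈ I, |i| ≤ N₀ := by
    refine ⟨I.sup Int.natAbs, fun i hi => ?_⟩
    have := Finset.le_sup (f := Int.natAbs) hi
    rw [Int.abs_eq_natAbs]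
    exact_mod_cast this
  obtain ⟨ε, hε0, hε⟩ : ∃ ε > 0, ∀ i ∈ I, ε ≤ e i := by
    by_cases hI : I.Nonempty
    · refine ⟨I.inf' hI e, ?_, fun i hi => Finset.inf'_le _ hi⟩
      obtain ⟨i, hi, h⟩ := Finset.exists_mem_eq_inf' hI e
      rw [h]
      exact he0 i hi
    · exact ⟨1, one_pos, fun i hi => absurd ⟨i, hi⟩ hI⟩
  refine ⟨N₀, ε, hε0, fun z hz => hsub fun i hi => he i hi ?_⟩
  rw [Metric.mem_closedBall, Real.dist_eq]
  exact (hz i (hN₀ i hi)).trans (hε i hi)

/-- Any two nonempty open sets admit a progression along which they can be visited freely. -/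
lemma independence {A B : Set K} (hA : IsOpen A) (hB : IsOpen B) (hAn : A.Nonempty)
    (hBn : B.Nonempty) : ∃ g : ℕ, 0 < g ∧ ∀ s : ℕ → Bool, ∃ x : K, ∀ q : ℕ,
      (s q = true → T^[g * q] x ∈ A) ∧ (s q = false → T^[g * q] x ∈ B) := by
  obtain ⟨a, ha⟩ := hAn
  obtain ⟨b, hb⟩ := hBn
  obtain ⟨N₁, ε₁, hε₁, h₁⟩ := exists_window hA ha
  obtain ⟨N₂, ε₂, hε₂, h₂⟩ := exists_window hB hb
  obtain ⟨g, hg, hglue⟩ := glue a.2 b.2 (max N₁ N₂) (lt_min hε₁ hε₂)
  refine ⟨g, hg, fun s => ?_⟩
  obtain ⟨x, hxK, hx⟩ := hglue fun q => s q.toNat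
  refine ⟨⟨x, hxK⟩, fun q => ⟨fun hs => h₁ _ fun r hr => ?_, fun hs => h₂ _ fun r hr => ?_⟩⟩
  · have := hx q r (hr.trans (by exact_mod_cast le_max_left _ _))
    simp only [Int.toNat_natCast, hs, if_true] at this
    rw [T_iterate]
    have e : r + ((g * q : ℕ) : ℤ) = g * q + r := by push_cast; ring
    rw [e]
    exact this.trans (min_le_left _ _)
  · have := hx q r (hr.trans (by exact_mod_cast le_max_right _ _))
    simp only [Int.toNat_natCast, hs] at this
    rw [T_iterate]
    have e : r + ((g * q : ℕ) : ℤ) = g * q + r := by push_cast; ring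
    rw [e]
    simpa using this.trans (min_le_right _ _)

lemma minCard_mem (U V : Set K) (hUV : U ∪ V = Set.univ) (n : ℕ) :
    {k | ∃ 𝒮 : Finset (Set K), (𝒮 : Set (Set K)) ⊆ coverJoin T {U, V} n ∧
    ⋃₀ (𝒮 : Set (Set K)) = Set.univ ∧ 𝒮.card = k}.Nonempty := by
  classical
  let F : (Fin n → Bool) → Set K := fun b =>
    ⋂ i ∈ Finset.range n, T^[i] ⁻¹' (if h : i < n then (if b ⟨i, h⟩ then U else V) else U)
  refine ⟨_, Finset.univ.image F, ?_, ?_, rfl⟩
  · intro W hW
    simp only [Finset.coe_image, Finset.coe_univ, Set.image_univ, Set.mem_range] at hW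
    obtain ⟨b, rfl⟩ := hW
    refine ⟨fun i => if h : i < n then (if b ⟨i, h⟩ then U else V) else U, fun i => ?_, rfl⟩
    dsimp only
    split_ifs <;> simp
  · rw [Set.eq_univ_iff_forall]
    intro x
    refine Set.mem_sUnion.2 ⟨F fun i => decide (T^[i] x ∈ U), by simp, ?_⟩
    simp only [F, Set.mem_iInter, Finset.mem_range, Set.mem_preimage]
    intro i hi
    rw [dif_pos hi]
    by_cases hU : T^[i] x ∈ U
    · simp [hU]
    · have : T^[i] x ∈ U ∪ V := by rw [hUV]; trivial
      simpa [hU] using this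

lemma minCard_lower {U V A B : Set K} (hUV : U ∪ V = Set.univ) (hAU : Disjoint A U)
    (hBV : Disjoint B V) {g : ℕ} (hg : 0 < g)
    (hind : ∀ s : ℕ → Bool, ∃ x : K, ∀ q : ℕ,
      (s q = true → T^[g * q] x ∈ A) ∧ (s q = false → T^[g * q] x ∈ B))
    {N n : ℕ} (hn : g * N ≤ n) : 2 ^ N ≤ minCard (coverJoin T {U, V} n) := by
  classical
  obtain ⟨𝒮, h𝒮, hcov, hcard⟩ := Nat.sInf_mem (minCard_mem U V hUV n)
  rw [minCard, ← hcard]
  -- extend finite words to sequences
  let ext : (Fin N → Bool) → ℕ → Bool := fun s q => if h : q < N then s ⟨q, h⟩ else true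
  choose x hx using fun s : Fin N → Bool => hind (ext s)
  have hW : ∀ s : Fin N → Bool, ∃ W ∈ 𝒮, x s ∈ W := by
    intro s
    have : x s ∈ ⋃₀ (𝒮 : Set (Set K)) := by rw [hcov]; trivial
    obtain ⟨W, hW, hxW⟩ := Set.mem_sUnion.1 this
    exact ⟨W, by exact_mod_cast hW, hxW⟩
  choose W hW𝒮 hxW using hW
  have hinj : Function.Injective W := by
    intro s s' hss
    by_contra hne
    obtain ⟨q, hq⟩ := Function.ne_iff.1 hne
    obtain ⟨c, hc, hWc⟩ := h𝒮 (hW𝒮 s)
    have hqn : g * q.1 < n := by
      calc g * q.1 < g * N := Nat.mul_lt_mul_of_pos_left q.2 hg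
        _ ≤ n := hn
    have hmem : ∀ s'' : Fin N → Bool, x s'' ∈ W s → T^[g * q.1] (x s'') ∈ c (g * q.1) := by
      intro s'' hs''
      rw [hWc] at hs''
      simp only [Set.mem_iInter, Finset.mem_range, Set.mem_preimage] at hs''
      exact hs'' _ hqn
    have hU : ∀ s'' : Fin N → Bool, x s'' ∈ W s → s'' q = true → c (g * q.1) ≠ U := by
      intro s'' hs'' htrue hcU
      have h1 := hmem s'' hs''
      have h2 := (hx s'' q.1).1 (by simp [ext, htrue])
      rw [hcU] at h1
      exact Set.disjoint_left.1 hAU h2 h1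
    have hV : ∀ s'' : Fin N → Bool, x s'' ∈ W s → s'' q = false → c (g * q.1) ≠ V := by
      intro s'' hs'' hfalse hcV
      have h1 := hmem s'' hs''
      have h2 := (hx s'' q.1).2 (by simp [ext, hfalse])
      rw [hcV] at h1
      exact Set.disjoint_left.1 hBV h2 h1
    have hs : x s ∈ W s := hxW s
    have hs' : x s' ∈ W s := by rw [hss]; exact hxW s'
    have hcq := hc (g * q.1)
    simp only [Set.mem_insert_iff, Set.mem_singleton_iff] at hcq
    cases h1 : s q <;> cases h2 : s' q
    · exact hq (by rw [h1, h2])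
    · exact hcq.elim (hU s' hs' h2) (hV s hs h1)
    · exact hcq.elim (hU s hs h1) (hV s' hs' h2)
    · exact hq (by rw [h1, h2])
  calc 2 ^ N = Fintype.card (Fin N → Bool) := by simp
    _ = (Finset.univ.image W).card := by
        rw [Finset.card_image_of_injective _ hinj, Finset.card_univ]
    _ ≤ 𝒮.card := Finset.card_le_card fun _ h => by
        obtain ⟨s, _, rfl⟩ := Finset.mem_image.1 h
        exact hW𝒮 s

lemma isUPE_T : IsUPE (T : K → K) := by
  intro U V hU hV hUV hUd hVd
  have hAn : ((closure U)ᶜ).Nonempty := by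
    rw [Set.nonempty_compl]
    exact fun h => hUd (dense_iff_closure_eq.2 h)
  have hBn : ((closure V)ᶜ).Nonempty := by
    rw [Set.nonempty_compl]
    exact fun h => hVd (dense_iff_closure_eq.2 h)
  obtain ⟨g, hg, hind⟩ := independence isClosed_closure.isOpen_compl
    isClosed_closure.isOpen_compl hAn hBn
  have hAU : Disjoint (closure U)ᶜ U :=
    Set.disjoint_left.2 fun z hz hzU => hz (subset_closure hzU)
  have hBV : Disjoint (closure V)ᶜ V :=
    Set.disjoint_left.2 fun z hz hzV => hz (subset_closure hzV)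
  have hgr : (0 : ℝ) < g := by exact_mod_cast hg
  have hl2 : 0 < Real.log 2 := Real.log_pos (by norm_num)
  have hc : 0 < Real.log 2 / (2 * g) := by positivity
  refine lt_of_lt_of_le (b := ((Real.log 2 / (2 * g) : ℝ) : EReal)) (by exact_mod_cast hc) ?_
  refine le_liminf_of_le (by isBoundedDefault) ?_
  filter_upwards [eventually_ge_atTop g] with n hn
  have hn0 : (0 : ℝ) < n := by exact_mod_cast (lt_of_lt_of_le hg hn)
  have h1 := minCard_lower hUV hAU hBV hg hind (N := n / g) (n := n) (Nat.mul_div_le n g)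
  have h2 : ((n / g : ℕ) : ℝ) * Real.log 2 ≤ Real.log (minCard (coverJoin T {U, V} n)) := by
    rw [← Real.log_pow]
    apply Real.log_le_log (by positivity)
    exact_mod_cast h1
  have h3 : (n : ℝ) ≤ 2 * g * ((n / g : ℕ) : ℝ) := by
    have h4 : 1 ≤ n / g := (Nat.one_le_div_iff hg).2 hn
    have h5 : n < g * (n / g + 1) := Nat.lt_mul_div_succ n hg
    have h6 : n ≤ 2 * g * (n / g) := by nlinarith
    exact_mod_cast h6
  have h7 : Real.log 2 / (2 * g) ≤ Real.log (minCard (coverJoin T {U, V} n)) / n := by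
    rw [div_le_div_iff₀ (by positivity) hn0]
    calc Real.log 2 * n ≤ Real.log 2 * (2 * g * ((n / g : ℕ) : ℝ)) := by gcongr
      _ = (((n / g : ℕ) : ℝ) * Real.log 2) * (2 * g) := by ring
      _ ≤ _ := by gcongr
  exact_mod_cast h7

/-! ### No ergodic measure of full support -/

/-- The point with a single nonzero coordinate `t` at the origin. -/
noncomputable def bump (t : ℝ) : ℤ → ℝ := fun i => if i = 0 then t else 0

lemma bump_mem {t : ℝ} (ht : |t| ≤ 1) : bump t ∈ K := by
  have ht' := abs_le.1 ht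
  refine ⟨fun i => ?_, fun i n => ?_⟩
  · simp only [bump]
    split_ifs
    · exact ht
    · simp
  · by_cases hi : bump t i < 0
    · have hi0 : i = 0 := by
        by_contra h
        simp [bump, h] at hi
      subst hi0
      simp only [bump, if_true] at hi
      have hz : ∀ j ∈ Finset.range (n + 1), max (bump t ((0 : ℤ) + (j : ℤ))) 0 = 0 := by
        intro j _
        simp only [bump]
        split_ifs
        · exact max_eq_right hi.le
        · simp
      rw [Finset.sum_eq_zero hz]
      have : min (bump t 0) 0 = t := by simp [bump, hi.le]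
      rw [this]
      have : 0 ≤ 1 + t := by linarith
      positivity
    · push Not at hi
      rw [min_eq_right hi, add_zero, one_mul]
      calc ∑ j ∈ Finset.range (n + 1), max (bump t (i + j)) 0
          ≤ ∑ j ∈ Finset.range (n + 1), (1 : ℝ) := by
            refine Finset.sum_le_sum fun j _ => ?_
            simp only [bump]
            split_ifs
            · exact max_le ht'.2 (by norm_num)
            · simp
        _ = (n : ℝ) + 1 := by simp

/-- The positive part of the zeroth coordinate. -/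
noncomputable def f (z : K) : ENNReal := ENNReal.ofReal ((z : ℤ → ℝ) 0)

/-- Averages of `f` along orbits. -/
noncomputable def Av (n : ℕ) (z : K) : ENNReal :=
  (∑ j ∈ Finset.range (n + 1), f (T^[j] z)) / ((n : ENNReal) + 1)

section meas

variable [MeasurableSpace K] [BorelSpace K]

lemma measurable_f : Measurable f :=
  ENNReal.measurable_ofReal.comp
    ((continuous_apply (0 : ℤ)).comp continuous_subtype_val).measurable

lemma measurable_T_iter (j : ℕ) : Measurable (T^[j] : K → K) :=
  (T.continuous.iterate j).measurable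

lemma measurable_Av (n : ℕ) : Measurable (Av n) := by
  unfold Av
  exact (Finset.measurable_fun_sum _ fun j _ =>
    measurable_f.comp (measurable_T_iter j)).div_const _

end meas

lemma f_le_one (z : K) : f z ≤ 1 := by
  unfold f
  rw [← ENNReal.ofReal_one]
  exact ENNReal.ofReal_le_ofReal (abs_le.1 (z.2.1 0)).2

lemma Av_le_one (n : ℕ) (z : K) : Av n z ≤ 1 := by
  unfold Av
  refine ENNReal.div_le_of_le_mul ?_
  rw [one_mul]
  calc ∑ j ∈ Finset.range (n + 1), f (T^[j] z) ≤ ∑ j ∈ Finset.range (n + 1), 1 :=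
        Finset.sum_le_sum fun j _ => f_le_one _
    _ = (n : ENNReal) + 1 := by simp

lemma Av_T_le (n : ℕ) (z : K) : Av n (T z) ≤ Av n z + ((n : ENNReal) + 1)⁻¹ := by
  unfold Av
  rw [← one_div, ← ENNReal.add_div]
  gcongr
  have h1 : ∑ j ∈ Finset.range (n + 1), f (T^[j] (T z))
      = ∑ j ∈ Finset.range (n + 1), f (T^[j + 1] z) :=
    Finset.sum_congr rfl fun j _ => by rw [Function.iterate_succ_apply]
  rw [h1]
  have h2 := Finset.sum_range_succ' (fun j => f (T^[j] z)) (n + 1)
  have h3 := Finset.sum_range_succ (fun j => f (T^[j] z)) (n + 1)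
  calc ∑ j ∈ Finset.range (n + 1), f (T^[j + 1] z)
      ≤ ∑ j ∈ Finset.range (n + 1), f (T^[j + 1] z) + f (T^[0] z) := le_self_add
    _ = ∑ j ∈ Finset.range (n + 1), f (T^[j] z) + f (T^[n + 1] z) := by rw [← h2, h3]
    _ ≤ _ := by gcongr; exact f_le_one _

lemma Av_le_T (n : ℕ) (z : K) : Av n z ≤ Av n (T z) + ((n : ENNReal) + 1)⁻¹ := by
  unfold Av
  rw [← one_div, ← ENNReal.add_div]
  gcongr
  have h1 : ∑ j ∈ Finset.range (n + 1), f (T^[j] (T z))
      = ∑ j ∈ Finset.range (n + 1), f (T^[j + 1] z) :=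
    Finset.sum_congr rfl fun j _ => by rw [Function.iterate_succ_apply]
  rw [h1]
  have h2 := Finset.sum_range_succ' (fun j => f (T^[j] z)) (n + 1)
  have h3 := Finset.sum_range_succ (fun j => f (T^[j] z)) (n + 1)
  calc ∑ j ∈ Finset.range (n + 1), f (T^[j] z)
      ≤ ∑ j ∈ Finset.range (n + 1), f (T^[j] z) + f (T^[n + 1] z) := le_self_add
    _ = ∑ j ∈ Finset.range (n + 1), f (T^[j + 1] z) + f (T^[0] z) := by rw [← h3, h2]
    _ ≤ _ := by gcongr; exact f_le_one _

lemma tendsto_inv_nat : Tendsto (fun n : ℕ => ((n : ENNReal) + 1)⁻¹) atTop (𝓝 0) := by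
  have h := ENNReal.tendsto_inv_nat_nhds_zero.comp (tendsto_add_atTop_nat 1)
  refine h.congr fun n => ?_
  simp

lemma limsup_Av_T (z : K) :
    limsup (fun n => Av n (T z)) atTop = limsup (fun n => Av n z) atTop := by
  have key : ∀ u v : ℕ → ENNReal, (∀ n, u n ≤ v n + ((n : ENNReal) + 1)⁻¹) →
      limsup u atTop ≤ limsup v atTop := by
    intro u v h
    calc limsup u atTop ≤ limsup (v + fun n : ℕ => ((n : ENNReal) + 1)⁻¹) atTop :=
          limsup_le_limsup (Eventually.of_forall h)
      _ = limsup v atTop := ENNReal.limsup_add_of_right_tendsto_zero tendsto_inv_nat v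
  exact le_antisymm (key _ _ fun n => Av_T_le n z) (key _ _ fun n => Av_le_T n z)

lemma Av_le_of_neg (n : ℕ) (z : K) (hz : (z : ℤ → ℝ) 0 < 0) :
    Av n z ≤ ENNReal.ofReal (1 + (z : ℤ → ℝ) 0) := by
  have h := z.2.2 0 n
  rw [min_eq_left hz.le] at h
  unfold Av
  refine ENNReal.div_le_of_le_mul ?_
  have h1 : ∑ j ∈ Finset.range (n + 1), f (T^[j] z)
      = ENNReal.ofReal (∑ j ∈ Finset.range (n + 1), max ((z : ℤ → ℝ) ((0 : ℤ) + j)) 0) := by
    rw [ENNReal.ofReal_sum_of_nonneg fun j _ => le_max_right _ _]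
    refine Finset.sum_congr rfl fun j _ => ?_
    unfold f
    rw [T_iterate, ENNReal.ofReal_max]
    simp
  rw [h1]
  have h2 : ((n : ENNReal) + 1) = ENNReal.ofReal ((n : ℝ) + 1) := by
    rw [ENNReal.ofReal_add (by positivity) (by norm_num), ENNReal.ofReal_natCast,
      ENNReal.ofReal_one]
  rw [h2, ← ENNReal.ofReal_mul (by linarith [(abs_le.1 (z.2.1 0)).1])]
  exact ENNReal.ofReal_le_ofReal h

lemma not_full_support [MeasurableSpace K] [BorelSpace K] (μ : Measure K)
    [IsProbabilityMeasure μ] (hμ : Ergodic T μ) :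
    ∃ U : Set K, IsOpen U ∧ U.Nonempty ∧ μ U = 0 := by
  by_contra hcon
  push Not at hcon
  have hpos : ∀ U : Set K, IsOpen U → U.Nonempty → μ U ≠ 0 := fun U hU hUn h =>
    hcon U hU hUn h
  have hc0 : Continuous fun z : K => (z : ℤ → ℝ) 0 :=
    (continuous_apply (0 : ℤ)).comp continuous_subtype_val
  set a : ENNReal := ∫⁻ z, f z ∂μ with ha
  have ha1 : a ≤ 1 := by
    calc a ≤ ∫⁻ _, 1 ∂μ := lintegral_mono f_le_one
      _ = 1 := by simp
  have hat : a ≠ ⊤ := (ha1.trans_lt ENNReal.one_lt_top).ne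
  have ha0 : a ≠ 0 := by
    have hU : IsOpen {z : K | (1 / 2 : ℝ) < (z : ℤ → ℝ) 0} := isOpen_lt continuous_const hc0
    have hUn : {z : K | (1 / 2 : ℝ) < (z : ℤ → ℝ) 0}.Nonempty := by
      refine ⟨⟨bump 1, bump_mem (by norm_num)⟩, ?_⟩
      change (1 / 2 : ℝ) < bump 1 0
      simp only [bump, if_true]
      norm_num
    have h1 := hpos _ hU hUn
    have h2 : ENNReal.ofReal (1 / 2) * μ {z : K | (1 / 2 : ℝ) < (z : ℤ → ℝ) 0} ≤ a := by
      calc ENNReal.ofReal (1 / 2) * μ {z : K | (1 / 2 : ℝ) < (z : ℤ → ℝ) 0}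
          ≤ ENNReal.ofReal (1 / 2) * μ {z : K | ENNReal.ofReal (1 / 2) ≤ f z} := by
            gcongr
            intro hz
            exact ENNReal.ofReal_le_ofReal (le_of_lt hz)
        _ ≤ a := mul_meas_ge_le_lintegral measurable_f _
    intro h0
    rw [h0, nonpos_iff_eq_zero, mul_eq_zero] at h2
    rcases h2 with h2 | h2
    · norm_num at h2
    · exact h1 h2
  -- the upper averages
  set F : K → ENNReal := fun z => limsup (fun n => Av n z) atTop with hF
  have hFm : Measurable F := Measurable.limsup measurable_Av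
  have hFT : F ∘ T = F := funext fun z => limsup_Av_T z
  obtain ⟨c, hc⟩ := hμ.toPreErgodic.ae_eq_const_of_ae_eq_comp hFm hFT
  have hAvint : ∀ n, ∫⁻ z, Av n z ∂μ = a := by
    intro n
    unfold Av
    simp only [div_eq_mul_inv]
    have hm : ∀ j : ℕ, Measurable fun z : K => f (T^[j] z) := fun j =>
      measurable_f.comp (measurable_T_iter j)
    rw [lintegral_mul_const _ (Finset.measurable_fun_sum _ fun j _ => hm j),
      lintegral_finsetSum _ fun j _ => hm j]
    have h1 : ∀ j ∈ Finset.range (n + 1), ∫⁻ z, f (T^[j] z) ∂μ = a := fun j _ =>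
      (hμ.toMeasurePreserving.iterate j).lintegral_comp measurable_f
    rw [Finset.sum_congr rfl h1, Finset.sum_const, Finset.card_range, nsmul_eq_mul,
      mul_comm, ← mul_assoc]
    push_cast
    rw [ENNReal.inv_mul_cancel (by positivity)
      (ENNReal.add_ne_top.2 ⟨ENNReal.natCast_ne_top n, ENNReal.one_ne_top⟩), one_mul]
  have hac : a ≤ c := by
    have h1 := limsup_lintegral_le (μ := μ) (f := fun n z => Av n z) (fun _ => 1) measurable_Av
      (fun n => Eventually.of_forall fun z => Av_le_one n z) (by simp)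
    have h2 : limsup (fun n => ∫⁻ z, Av n z ∂μ) atTop = a := by
      simp only [hAvint]
      exact tendsto_const_nhds.limsup_eq
    have h3 : ∫⁻ z, limsup (fun n => Av n z) atTop ∂μ = c := by
      rw [lintegral_congr_ae hc]
      simp
    rw [h2, h3] at h1
    exact h1
  -- points with a very negative coordinate
  have har : 0 < a.toReal := ENNReal.toReal_pos ha0 hat
  have har1 : a.toReal ≤ 1 := by
    have := ENNReal.toReal_mono ENNReal.one_ne_top ha1
    simpa using this
  have hE : IsOpen {z : K | (z : ℤ → ℝ) 0 < -(1 - a.toReal / 2)} := isOpen_lt hc0 continuous_const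
  have hEn : {z : K | (z : ℤ → ℝ) 0 < -(1 - a.toReal / 2)}.Nonempty := by
    refine ⟨⟨bump (-1), bump_mem (by norm_num)⟩, ?_⟩
    change bump (-1) 0 < _
    simp only [bump, if_true]
    linarith
  have hEpos := hpos _ hE hEn
  obtain ⟨z, hz, hzc⟩ : ∃ z : K, (z : ℤ → ℝ) 0 < -(1 - a.toReal / 2) ∧ F z = c := by
    by_contra h
    push Not at h
    apply hEpos
    refine measure_mono_null (fun z hz => ?_) (ae_iff.1 hc)
    exact h z hz
  have hFz : F z ≤ ENNReal.ofReal (a.toReal / 2) := by
    refine limsup_le_of_le (by isBoundedDefault) (Eventually.of_forall fun n => ?_)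
    refine (Av_le_of_neg n z (by linarith)).trans (ENNReal.ofReal_le_ofReal (by linarith))
  have : a ≤ ENNReal.ofReal (a.toReal / 2) := hac.trans (hzc ▸ hFz)
  have h5 : ENNReal.ofReal a.toReal ≤ ENNReal.ofReal (a.toReal / 2) := by
    rwa [ENNReal.ofReal_toReal hat]
  rw [ENNReal.ofReal_le_ofReal_iff (by positivity)] at h5
  linarith

/-- **Negative answer.** There is a homeomorphism `T` of a nonempty compact metrizable space `X` with
uniform positive entropy such that no ergodic `T`-invariant Borel probability measure has full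
support: every such measure vanishes on some nonempty open set. -/
theorem result : ∃ (X : Type) (_ : TopologicalSpace X) (_ : CompactSpace X)
    (_ : TopologicalSpace.MetrizableSpace X) (_ : Nonempty X) (T : X ≃ₜ X),
    IsUPE T ∧ ∀ (_ : MeasurableSpace X) (_ : BorelSpace X) (μ : Measure X),
      IsProbabilityMeasure μ → Ergodic T μ →
        ∃ U : Set X, IsOpen U ∧ U.Nonempty ∧ μ U = 0 := by
  refine ⟨K, inferInstance, inferInstance, inferInstance, ⟨⟨bump (-1), bump_mem (by norm_num)⟩⟩, T,
    isUPE_T, ?_⟩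
  intro _ _ μ hμ hT
  exact not_full_support μ hT

end Pool.Agent.Results.MP_6603ca_an.NoFullSupport
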